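import Pool.Agent.MBX.Stmts

/-!
# MBX, row NFC: closure of the class of nice functions
-/

set_option autoImplicit false

open MeasureTheory Complex ProbabilityTheory

namespace Pool.Agent.MBX.H52

open Pool.Agent.MBX
open Pool.Agent.Helper49_Pauli
open Pool.Agent.Loc (γn PB)

theorem nfc : NfcStmt := by
  intro ι _ _ F hF
  obtain ⟨hFc, C, m, R, hC, hFb⟩ := hF
  refine ⟨?_, ?_, ?_⟩
  · intro G hG
    obtain ⟨hGc, C', m', R', hC', hGb⟩ := hG
    refine ⟨⟨hFc.add hGc, C + C', max m m', max R R', by positivity, ?_⟩,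
      ⟨hFc.mul hGc, C * C', m + m', max R R', by positivity, ?_⟩⟩
    · intro y x
      refine ⟨?_, ?_⟩
      · have h1 := Pool.Agent.Loc.prod_mono (le_max_left m m') y
        have h2 := Pool.Agent.Loc.prod_mono (le_max_right m m') y
        calc |F y x + G y x| ≤ |F y x| + |G y x| := abs_add_le _ _
          _ ≤ C * ∏ i, (1 + |y i|) ^ m + C' * ∏ i, (1 + |y i|) ^ m' :=
              add_le_add (hFb y x).1 (hGb y x).1
          _ ≤ C * ∏ i, (1 + |y i|) ^ (max m m') + C' * ∏ i, (1 + |y i|) ^ (max m m') := by gcongr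
          _ = _ := by ring
      · intro hx
        show F y x + G y x = 0
        rw [(hFb y x).2 (le_trans (le_max_left _ _) hx), (hGb y x).2 (le_trans (le_max_right _ _) hx),
          add_zero]
    · intro y x
      refine ⟨?_, ?_⟩
      · calc |F y x * G y x| = |F y x| * |G y x| := abs_mul _ _
          _ ≤ (C * ∏ i, (1 + |y i|) ^ m) * (C' * ∏ i, (1 + |y i|) ^ m') :=
              mul_le_mul (hFb y x).1 (hGb y x).1 (abs_nonneg _)
                (le_trans (abs_nonneg _) (hFb y x).1)
          _ = C * C' * ((∏ i, (1 + |y i|) ^ m) * ∏ i, (1 + |y i|) ^ m') := by ring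
          _ = C * C' * ∏ i, (1 + |y i|) ^ (m + m') := by
              rw [← Finset.prod_mul_distrib]
              simp only [pow_add]
      · intro hx
        show F y x * G y x = 0
        rw [(hFb y x).2 (le_trans (le_max_left _ _) hx), zero_mul]
  · intro g hg
    obtain ⟨hgc, C', m', hC', hgb⟩ := hg
    refine ⟨(hgc.comp continuous_fst).mul hFc, C' * C, m' + m, R, by positivity, ?_⟩
    intro y x
    refine ⟨?_, ?_⟩
    · calc |g y * F y x| = |g y| * |F y x| := abs_mul _ _
        _ ≤ (C' * ∏ i, (1 + |y i|) ^ m') * (C * ∏ i, (1 + |y i|) ^ m) :=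
            mul_le_mul (hgb y) (hFb y x).1 (abs_nonneg _) (le_trans (abs_nonneg _) (hgb y))
        _ = C' * C * ((∏ i, (1 + |y i|) ^ m') * ∏ i, (1 + |y i|) ^ m) := by ring
        _ = C' * C * ∏ i, (1 + |y i|) ^ (m' + m) := by
            rw [← Finset.prod_mul_distrib]
            simp only [pow_add]
    · intro hx
      show g y * F y x = 0
      rw [(hFb y x).2 hx, mul_zero]
  · refine ⟨hFc.abs, C, m, R, hC, ?_⟩
    intro y x
    refine ⟨?_, ?_⟩
    · rw [abs_abs]
      exact (hFb y x).1
    · intro hx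
      show |F y x| = 0
      rw [(hFb y x).2 hx, abs_zero]

end Pool.Agent.MBX.H52
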